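import Pool.Agent.K3h16.MI.Stm

/-! Brick HAD of project MI (helper16): Hadamard's lemma. -/

set_option autoImplicit false

open MeasureTheory Set Filter Topology
open scoped ContDiff

namespace Pool.Agent.K3h49.MI

open Pool.Agent.K3h16.MI

theorem contDiff_param {P : Type} [NormedAddCommGroup P] [NormedSpace ℝ P]
    [FiniteDimensional ℝ P] (n : ℕ) :
    ∀ (G : Type) [NormedAddCommGroup G] [NormedSpace ℝ G] [CompleteSpace G] (F : P × ℝ → G),
      ContDiff ℝ ∞ F → ContDiff ℝ n (fun p => ∫ s in (0 : ℝ)..1, F (p, s)) := by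
  have : ProperSpace P := FiniteDimensional.proper ℝ P
  induction n with
  | zero =>
    intro G _ _ _ F hF
    rw [Nat.cast_zero, contDiff_zero]
    exact intervalIntegral.continuous_parametric_intervalIntegral_of_continuous'
      (f := fun p s => F (p, s)) hF.continuous 0 1
  | succ n ih =>
    intro G _ _ _ F hF
    have hF' : ContDiff ℝ ∞
        (fun x : P × ℝ => (fderiv ℝ F x).comp (ContinuousLinearMap.inl ℝ P ℝ)) :=
      (hF.fderiv_right (m := ∞) (by simp)).clm_comp contDiff_const
    rw [Nat.cast_succ, contDiff_succ_iff_hasFDerivAt]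
    refine ⟨fun p => ∫ s in (0 : ℝ)..1, (fderiv ℝ F (p, s)).comp (ContinuousLinearMap.inl ℝ P ℝ),
      ih _ _ hF', fun p => ?_⟩
    obtain ⟨C, hC⟩ := ((isCompact_closedBall p 1).prod
      (isCompact_Icc (a := (0 : ℝ)) (b := 1))).exists_bound_of_continuousOn
      hF'.continuous.continuousOn
    refine intervalIntegral.hasFDerivAt_integral_of_dominated_of_fderiv_le
      (s := Metric.closedBall p 1) (bound := fun _ => C)
      (F := fun p s => F (p, s))
      (F' := fun p s => (fderiv ℝ F (p, s)).comp (ContinuousLinearMap.inl ℝ P ℝ))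
      (Metric.closedBall_mem_nhds p one_pos) ?_ ?_ ?_ ?_ ?_ ?_
    · exact Eventually.of_forall fun x =>
        (hF.continuous.comp (Continuous.prodMk_right x)).aestronglyMeasurable
    · exact (hF.continuous.comp (Continuous.prodMk_right p)).intervalIntegrable _ _
    · exact (hF'.continuous.comp (Continuous.prodMk_right p)).aestronglyMeasurable
    · refine Eventually.of_forall fun t ht x hx => hC (x, t) ⟨hx, ?_⟩
      rw [uIoc_of_le zero_le_one] at ht
      exact Ioc_subset_Icc_self ht
    · exact intervalIntegrable_const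
    · refine Eventually.of_forall fun t _ x _ => ?_
      have h1 : HasFDerivAt F (fderiv ℝ F (x, t)) (x, t) :=
        (hF.differentiable (by simp) (x, t)).hasFDerivAt
      exact h1.comp x (hasFDerivAt_prodMk_left x t)

theorem t_HAD : S_HAD := by
  intro m n γ hγ
  have hd : ContDiff ℝ ∞ (fderiv ℝ γ) := hγ.fderiv_right (m := ∞) (by simp)
  refine ⟨fun u θ t => ∫ s in (0 : ℝ)..1, fderiv ℝ γ (u + (s * t) • θ) θ, ?_, ?_, ?_, ?_⟩
  · refine contDiff_infty.2 fun k => ?_
    refine contDiff_param (P := E m × E m × ℝ) k (E n)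
      (fun x => fderiv ℝ γ (x.1.1 + (x.2 * x.1.2.2) • x.1.2.1) x.1.2.1) ?_
    refine ContDiff.clm_apply (hd.comp ?_) ?_
    · fun_prop
    · fun_prop
  · intro u θ t
    have h1 : ∀ s : ℝ, HasDerivAt (fun s : ℝ => γ (u + (s * t) • θ))
        (t • fderiv ℝ γ (u + (s * t) • θ) θ) s := by
      intro s
      have h2 : HasFDerivAt γ (fderiv ℝ γ (u + (s * t) • θ)) (u + (s * t) • θ) :=
        (hγ.differentiable (by simp) _).hasFDerivAt
      have h3 : HasDerivAt (fun s : ℝ => u + (s * t) • θ) (t • θ) s := by
        have h4 := (((hasDerivAt_id s).mul_const t).smul_const θ).const_add u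
        simpa using h4
      have h5 := h2.comp_hasDerivAt s h3
      rwa [map_smul] at h5
    have h2 := intervalIntegral.integral_eq_sub_of_hasDerivAt
      (f := fun s : ℝ => γ (u + (s * t) • θ))
      (f' := fun s : ℝ => t • fderiv ℝ γ (u + (s * t) • θ) θ) (a := 0) (b := 1)
      (fun s _ => h1 s) ?_
    · rw [intervalIntegral.integral_smul] at h2
      rw [h2]
      simp
    · refine Continuous.intervalIntegrable ?_ _ _
      refine Continuous.const_smul ?_ t
      exact (hd.continuous.comp (by fun_prop)).clm_apply continuous_const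
  · intro u θ
    simp
  · intro u θ t
    rw [← intervalIntegral.integral_neg]
    refine intervalIntegral.integral_congr fun s _ => ?_
    simp only [smul_neg, mul_neg, neg_smul, neg_neg, map_neg]

end Pool.Agent.K3h49.MI
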