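import Pool.Agent.K3h16.MI.Stm

/-! Brick IBP of project MI (helper16): repeated integration by parts. -/

set_option autoImplicit false

open MeasureTheory Set Filter Topology
open scoped ContDiff

namespace Pool.Agent.K3h49.MI

open Pool.Agent.K3h16.MI

theorem integrable_cpow_mul {g : ℝ → ℂ} (hg : Continuous g) (hc : HasCompactSupport g) {r : ℂ}
    (hr : -1 < r.re) : IntegrableOn (fun t : ℝ => (t : ℂ) ^ r * g t) (Ioi 0) := by
  obtain ⟨R, hR⟩ : ∃ R : ℝ, ∀ t, R < |t| → g t = 0 := by
    obtain ⟨R, hR⟩ := hc.isCompact.isBounded.subset_closedBall (0 : ℝ)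
    refine ⟨R, fun t ht => ?_⟩
    by_contra hne
    have h1 := hR (subset_tsupport g (Function.mem_support.2 hne))
    rw [Metric.mem_closedBall, dist_zero_right, Real.norm_eq_abs] at h1
    linarith
  set S : ℝ := max R 1 with hS
  have hS0 : 0 ≤ S := le_trans zero_le_one (le_max_right _ _)
  have h1 : IntegrableOn (fun t : ℝ => (t : ℂ) ^ r) (Icc 0 S) := by
    rw [← intervalIntegrable_iff_integrableOn_Icc_of_le hS0]
    exact intervalIntegral.intervalIntegrable_cpow' hr
  have h2 : IntegrableOn (fun t : ℝ => (t : ℂ) ^ r * g t) (Icc 0 S) :=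
    h1.mul_continuousOn hg.continuousOn isCompact_Icc
  have h3 : IntegrableOn (fun t : ℝ => (t : ℂ) ^ r * g t) (Ioi S) := by
    have h4 : IntegrableOn (fun _ : ℝ => (0 : ℂ)) (Ioi S) := integrableOn_zero
    refine h4.congr_fun ?_ measurableSet_Ioi
    intro t ht
    have ht' : S < t := ht
    have : R < |t| := lt_of_lt_of_le (lt_of_le_of_lt (le_max_left _ _) ht') (le_abs_self t)
    simp only [hR t this, mul_zero]
  refine (h2.union h3).mono_set ?_
  intro t ht
  rcases le_or_gt t S with h | h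
  · exact Or.inl ⟨le_of_lt ht, h⟩
  · exact Or.inr h

theorem step {g : ℝ → ℂ} (hg : ContDiff ℝ 1 g) (hc : HasCompactSupport g) {τ : ℂ}
    (hτ : 0 < τ.re) :
    τ * ∫ t in Ioi (0 : ℝ), (t : ℂ) ^ (τ - 1) * g t =
      - ∫ t in Ioi (0 : ℝ), (t : ℂ) ^ τ * deriv g t := by
  have hg' : Continuous (deriv g) := hg.continuous_deriv le_rfl
  have hi1 : IntegrableOn (fun t : ℝ => (t : ℂ) ^ (τ - 1) * g t) (Ioi 0) :=
    integrable_cpow_mul hg.continuous hc (by simpa using hτ)
  have hi2 : IntegrableOn (fun t : ℝ => (t : ℂ) ^ τ * deriv g t) (Ioi 0) :=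
    integrable_cpow_mul hg' hc.deriv (by linarith)
  have hτ0 : τ ≠ 0 := by
    rintro rfl
    simp at hτ
  have h := integral_Ioi_of_hasDerivAt_of_tendsto (a := (0 : ℝ)) (m := (0 : ℂ))
    (f := fun t : ℝ => (t : ℂ) ^ τ * g t)
    (f' := fun t : ℝ => τ * ((t : ℂ) ^ (τ - 1) * g t) + (t : ℂ) ^ τ * deriv g t) ?_ ?_ ?_ ?_
  · have h2 : ∫ t in Ioi (0 : ℝ), (τ * ((t : ℂ) ^ (τ - 1) * g t) + (t : ℂ) ^ τ * deriv g t) =
        τ * (∫ t in Ioi (0 : ℝ), (t : ℂ) ^ (τ - 1) * g t) +
          ∫ t in Ioi (0 : ℝ), (t : ℂ) ^ τ * deriv g t := by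
      rw [integral_add (hi1.const_mul τ) hi2, integral_const_mul]
    rw [h2] at h
    simp only [Complex.ofReal_zero, Complex.zero_cpow hτ0, zero_mul, sub_zero] at h
    linear_combination h
  · exact ((Complex.continuous_ofReal_cpow_const hτ).mul hg.continuous).continuousWithinAt
  · intro t ht
    have ht' : 0 < t := ht
    have h1 : HasDerivAt (fun y : ℝ => (y : ℂ) ^ τ) (τ * (t : ℂ) ^ (τ - 1)) t := by
      have h3 : HasDerivAt (fun z : ℂ => z ^ τ) (τ * (t : ℂ) ^ (τ - 1) * 1) (t : ℂ) :=
        (hasDerivAt_id (t : ℂ)).cpow_const (Or.inl (by simpa using ht'))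
      rw [mul_one] at h3
      exact h3.comp_ofReal
    have h2 : HasDerivAt g (deriv g t) t :=
      (hg.differentiable one_ne_zero t).hasDerivAt
    have h3 := h1.mul h2
    rwa [mul_assoc] at h3
  · exact (hi1.const_mul τ).add hi2
  · obtain ⟨R, hR⟩ : ∃ R : ℝ, ∀ t, R < |t| → g t = 0 := by
      obtain ⟨R, hR⟩ := hc.isCompact.isBounded.subset_closedBall (0 : ℝ)
      refine ⟨R, fun t ht => ?_⟩
      by_contra hne
      have h1 := hR (subset_tsupport g (Function.mem_support.2 hne))
      rw [Metric.mem_closedBall, dist_zero_right, Real.norm_eq_abs] at h1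
      linarith
    refine tendsto_const_nhds.congr' ?_
    filter_upwards [eventually_gt_atTop R] with t ht
    rw [hR t (lt_of_lt_of_le ht (le_abs_self t)), mul_zero]

theorem t_IBP : S_IBP := by
  intro N f hf hc σ hσ
  induction N with
  | zero => simp
  | succ N ih =>
    have hsm : ContDiff ℝ ∞ (iteratedDeriv N f) := by
      rw [iteratedDeriv_eq_iterate]
      exact hf.iterate_deriv N
    have hcs : HasCompactSupport (iteratedDeriv N f) := by
      refine hc.mono' ?_
      have := tsupport_iteratedFDeriv_subset (𝕜 := ℝ) (f := f) N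
      intro t ht
      refine this (subset_tsupport _ ?_)
      rw [Function.mem_support] at ht ⊢
      intro h0
      refine ht ?_
      rw [iteratedDeriv, h0]
      rfl
    have hre : 0 < (σ + N).re := by
      simp only [Complex.add_re, Complex.natCast_re]
      positivity
    have h1 := step (g := iteratedDeriv N f) (hsm.of_le (by exact_mod_cast le_top)) hcs hre
    rw [← iteratedDeriv_succ] at h1
    rw [Finset.prod_range_succ, mul_right_comm, ih, pow_succ]
    have e1 : σ + ((N + 1 : ℕ) : ℂ) - 1 = σ + N := by push_cast; ring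
    rw [e1]
    linear_combination (-1) ^ N * h1

end Pool.Agent.K3h49.MI
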